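import Mathlib
import Pool.Agent.H587.Deg.Upper

/-!
# The maximum of the hat guessing number over the graphs of tree-depth at most `d + 1`

Let `P 0 = 1` and `P (k + 1) = P k * (P k + 1)`, so that `P d + 1 = 2, 3, 7, 43, 1807, ...` is
Sylvester's sequence.  The largest hat guessing number of a finite graph of tree-depth at most
`d + 1` is `P d`.  Graphs of tree-depth at most `d + 1` are `d`-degenerate, so a function `f` as in
the question satisfies `f d ≥ P d`, and `P d + 1 / 2 ≥ (5 / 2) ^ (2 ^ (d - 1))` for `d ≥ 1`.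
-/

set_option autoImplicit false

namespace Pool.Agent.Results.MP_994fee_co.TreeDepthExact

open Pool.Agent.H587.Deg

/-- `d`-degenerate, in the form of the frozen statements of the problem: the vertices can be ordered
such that every vertex has at most `d` neighbours before it. -/
def Degenerate {V : Type} (G : SimpleGraph V) (d : ℕ) : Prop :=
  ∃ ι : V → ℕ, Function.Injective ι ∧ ∀ v : V, {w : V | G.Adj v w ∧ ι w < ι v}.ncard ≤ d

theorem degenerate_of_treeDepth {V : Type} [Fintype V] {G : SimpleGraph V} {d : ℕ}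
    (h : TreeDepthLe G d) : Degenerate G d := by
  classical
  obtain ⟨r, hr, hadj⟩ := h
  let e : V ≃ Fin (Fintype.card V) := Fintype.equivFin V
  have hlt : ∀ u v, dep r u < dep r v →
      dep r u * Fintype.card V + (e u : ℕ) < dep r v * Fintype.card V + (e v : ℕ) := by
    intro u v huv
    have h1 : (dep r u + 1) * Fintype.card V ≤ dep r v * Fintype.card V :=
      Nat.mul_le_mul_right _ huv
    have h2 := (e u).2
    nlinarith
  refine ⟨fun v => dep r v * Fintype.card V + (e v : ℕ), ?_, ?_⟩
  · intro u v huv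
    simp only at huv
    rcases lt_trichotomy (dep r u) (dep r v) with h1 | h1 | h1
    · have := hlt u v h1; omega
    · rw [h1] at huv
      exact e.injective (Fin.ext (by omega))
    · have := hlt v u h1; omega
  · intro v
    refine (Set.ncard_le_ncard (t := {u | r u v}) ?_ (Set.toFinite _)).trans (hr.bound v)
    rintro w ⟨hw, hιw⟩
    rcases hadj v w hw with h1 | h1
    · exfalso
      have := hlt v w (dep_lt hr h1)
      simp only at hιw
      omega
    · exact h1

theorem exists_wins (d : ℕ) : ∃ (V : Type) (_ : Fintype V) (G : SimpleGraph V),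
    TreeDepthLe G d ∧ Wins G (P d) := by
  obtain ⟨S, hS, hc⟩ := exists_sys d d 0 (by omega)
  let G : SimpleGraph S.W :=
    { Adj := fun u w => S.r u w ∨ S.r w u
      symm := ⟨fun u w h => h.symm⟩
      loopless := ⟨fun u h => by
        rcases h with h | h <;> exact hS.irrefl u h⟩ }
  refine ⟨S.W, S.fin, G, ⟨S.r, hS, fun u w h => h⟩, fun w y => S.g w (fun i => i.elim0) y, ?_, ?_⟩
  · intro v c c' h
    apply S.loc
    intro u hu
    exact h u (hu.elim Or.inr Or.inl)
  · intro c
    by_contra hcon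
    push Not at hcon
    have h1 := hc c
    have h2 : (fun i => i.elim0 : Fin 0 → Fin (P d)) ∈ U S c := (mem_U S c _).2 hcon
    have h3 : 0 < (U S c).card := Finset.card_pos.2 ⟨_, h2⟩
    simp only [P] at h1
    omega

theorem P_growth (d : ℕ) (hd : 1 ≤ d) : ((5 : ℝ) / 2) ^ (2 ^ (d - 1)) ≤ (P d : ℝ) + 1 / 2 := by
  obtain ⟨n, rfl⟩ : ∃ n, d = n + 1 := ⟨d - 1, by omega⟩
  simp only [Nat.add_sub_cancel]
  clear hd
  induction n with
  | zero => norm_num [P]
  | succ n ih =>
    have h1 : (P (n + 1 + 1) : ℝ) = (P (n + 1) : ℝ) * ((P (n + 1) : ℝ) + 1) := by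
      simp only [P]
      push_cast
      ring
    rw [h1, pow_succ, pow_mul]
    have h2 : (0 : ℝ) ≤ ((5 : ℝ) / 2) ^ (2 ^ n) := by positivity
    nlinarith

theorem result : ∀ d : ℕ,
    IsGreatest {q : ℕ | ∃ (V : Type) (_ : Fintype V) (G : SimpleGraph V),
      TreeDepthLe G d ∧ Wins G q} (P d) ∧
    (∃ (V : Type) (_ : Fintype V) (G : SimpleGraph V), Degenerate G d ∧ Wins G (P d)) ∧
    (1 ≤ d → ((5 : ℝ) / 2) ^ (2 ^ (d - 1)) ≤ (P d : ℝ) + 1 / 2) := by
  intro d
  refine ⟨⟨exists_wins d, ?_⟩, ?_, P_growth d⟩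
  · rintro q ⟨V, hV, G, hG, hq⟩
    by_contra hlt
    push Not at hlt
    exact not_wins hG hlt hq
  · obtain ⟨V, hV, G, hG, h⟩ := exists_wins d
    exact ⟨V, hV, G, degenerate_of_treeDepth hG, h⟩

end Pool.Agent.Results.MP_994fee_co.TreeDepthExact
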